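import Mathlib

/-!
# Set families with distinct pairwise intersection sizes: the exact value

For `n ≥ 1` let `f n` be the largest `m` such that there are `m` distinct subsets of an
`n`-element set whose `m.choose 2` pairwise intersections have pairwise different sizes.
We determine `f n` for every `n ≥ 1`.

Write `N m` for the least `n` that admits such a family of `m` sets.  The file proves
`N 3 = 3`, `N 4 = 7`, `N 5 = 11` and `N m = m.choose 2 + 2` for all `m ≥ 6`.

* Lower bound (`lb0`, `lb1`, `lb2`): the values lie in `{0, ..., n - 1}`; if at most one of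
  these numbers is not a value, the sets with the largest sizes are forced and clash with two
  disjoint members of the family.
* Upper bound: `IsState s t` describes a family of `s + t + 1` sets in a universe of size
  `(s + t + 1).choose 2 + 2`, made of the whole set, `t` sets `(B k)ᶜ` with `B k` small
  and `s` small sets `A i`.  `step_bottom` and `step_top` insert a new set in the middle,
  together with `s + t + 1` new points.  The base case has `13` sets in an `80`-element set.
-/

set_option autoImplicit false

namespace Pool.Agent.H61.IntersectionSizes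

open Finset

/-- A family `A 0, ..., A (m - 1)` of subsets of `{0, ..., n - 1}` is intersection-distinct if
its members are pairwise distinct and the sizes `|A i ∩ A j|`, `i < j`, are pairwise
different. -/
def IntersectionDistinct {n m : ℕ} (A : Fin m → Finset (Fin n)) : Prop :=
  Function.Injective A ∧
    ∀ i j k l : Fin m, i < j → k < l → (A i ∩ A j).card = (A k ∩ A l).card → i = k ∧ j = l

/-- The closed formula: `(1 + ⌊√(8 n - 15)⌋) / 2` rounded down, except that
`f 1 = f 2 = 2`, `f 3 = f 4 = 3`, `f 7 = 4` and `f 11 = 5`. -/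
def f (n : ℕ) : ℕ :=
  if n ≤ 2 then 2 else if n ≤ 4 then 3 else if n = 7 then 4 else if n = 11 then 5
  else (1 + Nat.sqrt (8 * n - 15)) / 2

/-- some intersection-distinct family of `m` subsets of an `n`-element set exists -/
def Realizable (m n : ℕ) : Prop := ∃ A : Fin m → Finset (Fin n), IntersectionDistinct A

/-- `IsState s t V A B C`: the sets `univ`, `(B k)ᶜ` (`1 ≤ k ≤ t`) and `A i` (`1 ≤ i ≤ s`) in
the universe `V` form a family whose intersection sizes are prescribed, and `C` is an auxiliary
set used for inserting a further set. -/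
structure IsState (s t : ℕ) (V : Type) [Fintype V] [DecidableEq V]
    (A B : ℕ → Finset V) (C : Finset V) : Prop where
  cardV : Fintype.card V = (s + t + 1).choose 2 + 2
  cardB : ∀ k, 1 ≤ k → k ≤ t → (B k).card = 3 + k.choose 2
  BB : ∀ k l, 1 ≤ k → k < l → l ≤ t → (B k \ B l).card = k
  AB : ∀ i k, 1 ≤ i → i ≤ s → 1 ≤ k → k ≤ t → (A i ∩ B k).card = k
  cardA : ∀ i, 1 ≤ i → i ≤ s → (A i).card + (s + t + 1 - i).choose 2 + 1 = (s + t + 1).choose 2
  AA : ∀ i j, 1 ≤ i → i < j → j ≤ s → (A i \ A j).card = s + t + 1 - j
  cardC : C.card + t = 3 + t.choose 2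
  BC : ∀ k, 1 ≤ k → k ≤ t → (B k \ C).card = k
  CA : ∀ i, 1 ≤ i → i ≤ s → (C ∩ A i).card + i = t + 1

/-- the new points used when a set is inserted in the middle -/
structure IsGadget (s t : ℕ) (W : Type) [Fintype W] [DecidableEq W]
    (Z : ℕ → Finset W) (R : Finset W) : Prop where
  cardW : Fintype.card W = s + t + 1
  cardZ : ∀ i, 1 ≤ i → i ≤ s → (Z i).card = i
  ZZ : ∀ i j, 1 ≤ i → i < j → j ≤ s → (Z i ∩ Z j).card + 1 = i
  ZR : ∀ i, 1 ≤ i → i ≤ s → Z i ⊆ R
  cardR : R.card = 2 * t

section sums
variable {V W : Type} [DecidableEq V] [DecidableEq W]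

theorem inter_sum (a c : Finset V) (b d : Finset W) :
    a.disjSum b ∩ c.disjSum d = (a ∩ c).disjSum (b ∩ d) := by
  ext x; rcases x with x | x <;> simp

theorem sdiff_sum (a c : Finset V) (b d : Finset W) :
    a.disjSum b \ c.disjSum d = (a \ c).disjSum (b \ d) := by
  ext x; rcases x with x | x <;> simp

end sums

theorem choose_two_succ (n : ℕ) : (n + 1).choose 2 = n.choose 2 + n := by
  rw [Nat.choose_succ_succ' n 1]; simp [Nat.add_comm]

/-- inserting a new bottom set (needs `s = t`). -/
theorem step_bottom {s : ℕ} {V : Type} [Fintype V] [DecidableEq V]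
    {A B : ℕ → Finset V} {C : Finset V} (h : IsState s s V A B C)
    {W : Type} [Fintype W] [DecidableEq W] {Z : ℕ → Finset W} {R : Finset W}
    (g : IsGadget s s W Z R) :
    IsState (s + 1) s (V ⊕ W)
      (fun i => if i = s + 1 then univ \ C.disjSum R else (A i).disjSum (Z i))
      (fun k => (B k).disjSum ∅) (C.disjSum ∅) := by
  have hD : (C.disjSum R : Finset (V ⊕ W)).card = 3 + (s + 1).choose 2 := by
    rw [card_disjSum, g.cardR, choose_two_succ]
    have := h.cardC
    omega
  have hcard : Fintype.card (V ⊕ W) = (s + 1 + s + 1).choose 2 + 2 := by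
    rw [Fintype.card_sum, h.cardV, g.cardW]
    have : s + 1 + s + 1 = (s + s + 1) + 1 := by ring
    rw [this, choose_two_succ (s + s + 1)]
    ring
  refine ⟨hcard, ?_, ?_, ?_, ?_, ?_, ?_, ?_, ?_⟩
  · intro k h1 h2
    simpa [card_disjSum] using h.cardB k h1 h2
  · intro k l h1 h2 h3
    rw [sdiff_sum, card_disjSum]
    simpa using h.BB k l h1 h2 h3
  · intro i k hi hi' hk hk'
    by_cases hs : i = s + 1
    · simp only [hs, if_true]
      have : (univ \ C.disjSum R) ∩ (B k).disjSum (∅ : Finset W) = (B k \ C).disjSum ∅ := by
        ext x; rcases x with x | x <;> simp [and_comm]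
      rw [this, card_disjSum]
      simpa using h.BC k hk hk'
    · simp only [hs, if_false]
      rw [inter_sum, card_disjSum]
      simpa using h.AB i k hi (by omega) hk hk'
  · intro i hi hi'
    by_cases hs : i = s + 1
    · simp only [hs, if_true]
      have h1 := card_sdiff_add_card_eq_card (subset_univ (C.disjSum R : Finset (V ⊕ W)))
      rw [card_univ, hcard, hD] at h1
      have h2 : s + 1 + s + 1 - (s + 1) = s + 1 := by omega
      rw [h2]
      omega
    · simp only [hs, if_false]
      rw [card_disjSum, g.cardZ i hi (by omega)]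
      have h1 := h.cardA i hi (by omega)
      have h2 : s + 1 + s + 1 - i = (s + s + 1 - i) + 1 := by omega
      have h3 : s + 1 + s + 1 = (s + s + 1) + 1 := by omega
      rw [h2, h3, choose_two_succ, choose_two_succ (s + s + 1)]
      omega
  · intro i j hi hij hj
    have hs : i ≠ s + 1 := by omega
    by_cases hs' : j = s + 1
    · simp only [hs, hs', if_true, if_false]
      have : (A i).disjSum (Z i) \ (univ \ C.disjSum R) = (C ∩ A i).disjSum (Z i ∩ R) := by
        ext x; rcases x with x | x <;> simp [and_comm]
      rw [this, card_disjSum, inter_eq_left.mpr (g.ZR i hi (by omega)), g.cardZ i hi (by omega)]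
      have := h.CA i hi (by omega)
      omega
    · simp only [hs, hs', if_false]
      rw [sdiff_sum, card_disjSum, h.AA i j hi hij (by omega)]
      have h1 := card_sdiff_add_card_inter (Z i) (Z j)
      have h2 := g.ZZ i j hi hij (by omega)
      have h3 := g.cardZ i hi (by omega)
      omega
  · simpa [card_disjSum] using h.cardC
  · intro k h1 h2
    rw [sdiff_sum, card_disjSum]
    simpa using h.BC k h1 h2
  · intro i hi hi'
    by_cases hs : i = s + 1
    · simp only [hs, if_true]
      have : C.disjSum (∅ : Finset W) ∩ (univ \ C.disjSum R) = ∅ := by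
        ext x; rcases x with x | x <;> simp
      rw [this]; simp
    · simp only [hs, if_false]
      rw [inter_sum, card_disjSum]
      simpa using h.CA i hi (by omega)

/-- inserting a new top set. -/
theorem step_top {s t : ℕ} {V : Type} [Fintype V] [DecidableEq V]
    {A B : ℕ → Finset V} {C : Finset V} (h : IsState s t V A B C)
    {W : Type} [Fintype W] [DecidableEq W] {Z : ℕ → Finset W} {R Y : Finset W}
    (g : IsGadget s t W Z R) (hYR : Y ⊆ R) (hY : Y.card + 1 = t)
    (hYZ : ∀ i, 1 ≤ i → i ≤ s → (Y ∩ Z i).card = 1) :
    IsState s (t + 1) (V ⊕ W)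
      (fun i => (A i).disjSum (Z i))
      (fun k => if k = t + 1 then C.disjSum R else (B k).disjSum ∅) (C.disjSum Y) := by
  have hD : (C.disjSum R : Finset (V ⊕ W)).card = 3 + (t + 1).choose 2 := by
    rw [card_disjSum, g.cardR, choose_two_succ]
    have := h.cardC
    omega
  have hcard : Fintype.card (V ⊕ W) = (s + (t + 1) + 1).choose 2 + 2 := by
    rw [Fintype.card_sum, h.cardV, g.cardW]
    have : s + (t + 1) + 1 = (s + t + 1) + 1 := by ring
    rw [this, choose_two_succ (s + t + 1)]
    ring
  refine ⟨hcard, ?_, ?_, ?_, ?_, ?_, ?_, ?_, ?_⟩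
  · intro k h1 h2
    by_cases hk : k = t + 1
    · simp only [hk, if_true]; exact hD
    · simp only [hk, if_false]
      simpa [card_disjSum] using h.cardB k h1 (by omega)
  · intro k l h1 h2 h3
    have hk : k ≠ t + 1 := by omega
    by_cases hl : l = t + 1
    · simp only [hk, hl, if_true, if_false]
      rw [sdiff_sum, card_disjSum]
      simpa using h.BC k h1 (by omega)
    · simp only [hk, hl, if_false]
      rw [sdiff_sum, card_disjSum]
      simpa using h.BB k l h1 h2 (by omega)
  · intro i k hi hi' hk hk'
    by_cases hs : k = t + 1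
    · simp only [hs, if_true]
      rw [inter_sum, card_disjSum, inter_eq_left.mpr (g.ZR i hi hi'), g.cardZ i hi hi',
        inter_comm]
      exact h.CA i hi hi'
    · simp only [hs, if_false]
      rw [inter_sum, card_disjSum]
      simpa using h.AB i k hi hi' hk (by omega)
  · intro i hi hi'
    rw [card_disjSum, g.cardZ i hi hi']
    have h1 := h.cardA i hi hi'
    have h2 : s + (t + 1) + 1 - i = (s + t + 1 - i) + 1 := by omega
    have h3 : s + (t + 1) + 1 = (s + t + 1) + 1 := by omega
    rw [h2, h3, choose_two_succ, choose_two_succ (s + t + 1)]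
    omega
  · intro i j hi hij hj
    rw [sdiff_sum, card_disjSum, h.AA i j hi hij hj]
    have h1 := card_sdiff_add_card_inter (Z i) (Z j)
    have h2 := g.ZZ i j hi hij hj
    have h3 := g.cardZ i hi (by omega)
    omega
  · rw [card_disjSum, choose_two_succ]
    have := h.cardC
    omega
  · intro k h1 h2
    by_cases hk : k = t + 1
    · simp only [hk, if_true]
      rw [sdiff_sum, card_disjSum, card_sdiff_of_subset hYR, g.cardR]
      simp
      omega
    · simp only [hk, if_false]
      rw [sdiff_sum, card_disjSum]
      simpa using h.BC k h1 (by omega)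
  · intro i hi hi'
    rw [inter_sum, card_disjSum, hYZ i hi hi']
    have := h.CA i hi hi'
    omega

/-! ### lifting finsets of naturals -/

def lift (n : ℕ) (S : Finset ℕ) : Finset (Fin n) := univ.filter (fun x => (x : ℕ) ∈ S)

theorem mem_lift {n : ℕ} {S : Finset ℕ} {x : Fin n} : x ∈ lift n S ↔ (x : ℕ) ∈ S := by
  simp [lift]

theorem card_lift {n : ℕ} {S : Finset ℕ} (h : ∀ x ∈ S, x < n) : (lift n S).card = S.card := by
  rw [← card_map Fin.valEmbedding]
  congr 1
  ext x
  simp only [mem_map, mem_lift, Fin.valEmbedding_apply]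
  constructor
  · rintro ⟨a, ha, rfl⟩; exact ha
  · intro hx; exact ⟨⟨x, h x hx⟩, hx, rfl⟩

theorem lift_inter {n : ℕ} (S T : Finset ℕ) : lift n S ∩ lift n T = lift n (S ∩ T) := by
  ext x; simp [mem_lift]

theorem lift_mono {n : ℕ} {S T : Finset ℕ} (h : S ⊆ T) : lift n S ⊆ lift n T := by
  intro x hx; rw [mem_lift] at *; exact h hx

/-! ### the gadget for a bottom insertion -/

def zb (s i : ℕ) : Finset ℕ := insert (i - 1) (Ico s (s + i - 1))

theorem gadget_bottom (s : ℕ) :
    IsGadget s s (Fin (s + s + 1)) (fun i => lift _ (zb s i)) (lift _ (range (2 * s))) := by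
  refine ⟨by simp, ?_, ?_, ?_, ?_⟩
  · intro i hi hi'
    rw [card_lift]
    · rw [zb, card_insert_of_notMem (by simp only [mem_Ico]; omega), Nat.card_Ico]; omega
    · intro x hx; simp only [zb, mem_insert, mem_Ico] at hx; omega
  · intro i j hi hij hj
    have : zb s i ∩ zb s j = Ico s (s + i - 1) := by
      ext x; simp only [zb, mem_inter, mem_insert, mem_Ico]; omega
    rw [lift_inter, this, card_lift]
    · rw [Nat.card_Ico]; omega
    · intro x hx; simp only [mem_Ico] at hx; omega
  · intro i hi hi'
    apply lift_mono
    intro x hx; simp only [zb, mem_insert, mem_Ico, mem_range] at *; omega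
  · rw [card_lift]
    · simp
    · intro x hx; simp only [mem_range] at hx; omega

/-! ### the gadget for a top insertion -/

def bt (i : ℕ) : ℕ := if i ≤ 2 then i - 1 else if i ≤ 5 then i - 2 else i - 3

def xt (u i : ℕ) : Finset ℕ :=
  if i = 3 then Ico (u + 1) (u + 3) else if i = 6 then Ico u (u + 3) ∪ Ico (u + 4) (u + 6)
  else Ico u (u + i - 1)

def zt (u i : ℕ) : Finset ℕ := insert (bt i) (xt u i)

theorem card_xt (u i : ℕ) (hi : 1 ≤ i) : (xt u i).card = i - 1 := by
  unfold xt
  split_ifs with h1 h2
  · subst h1; simp
  · subst h2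
    rw [card_union_of_disjoint]
    · simp
    · rw [disjoint_left]; intro x hx; simp only [mem_Ico] at *; omega
  · rw [Nat.card_Ico]; omega

theorem bt_lt {u i : ℕ} (hu : 4 ≤ u) (hi' : i ≤ u + 2) : bt i < u := by
  unfold bt; split_ifs <;> omega

theorem xt_bd {u i x : ℕ} (hu : 4 ≤ u) (hi : 1 ≤ i) (hi' : i ≤ u + 2) (hx : x ∈ xt u i) :
    u ≤ x ∧ x < 2 * u + 2 := by
  unfold xt at hx
  split_ifs at hx with h1 h2
  · simp only [mem_Ico] at hx; omega
  · simp only [mem_union, mem_Ico] at hx; omega
  · simp only [mem_Ico] at hx; omega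

/-- intersection of the `X`-parts and coincidence of the `Y`-parts -/
theorem zt_inter (u i j : ℕ) (hu : 4 ≤ u) (hi : 1 ≤ i) (hij : i < j) (hj : j ≤ u + 2) :
    (zt u i ∩ zt u j).card + 1 = i := by
  have hbi : bt i < u := bt_lt hu (by omega)
  have hbj : bt j < u := bt_lt hu (by omega)
  by_cases h23 : i = 2 ∧ j = 3
  · obtain ⟨rfl, rfl⟩ := h23
    have : zt u 2 ∩ zt u 3 = {1} := by
      ext x; simp only [zt, xt, bt, mem_inter, mem_insert, mem_singleton]
      norm_num; omega
    rw [this]; simp
  by_cases h56 : i = 5 ∧ j = 6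
  · obtain ⟨rfl, rfl⟩ := h56
    have : zt u 5 ∩ zt u 6 = insert 3 (Ico u (u + 3)) := by
      ext x; simp only [zt, xt, bt, mem_inter, mem_insert, mem_Ico]
      norm_num; omega
    rw [this, card_insert_of_notMem (by simp only [mem_Ico]; omega)]; simp
  have hbb : bt i ≠ bt j := by
    unfold bt; split_ifs <;> omega
  have hsub : xt u i ⊆ xt u j := by
    intro x hx
    unfold xt at *
    split_ifs at * <;> simp only [mem_Ico, mem_union] at * <;> omega
  have hmain : zt u i ∩ zt u j = xt u i := by
    ext x
    simp only [zt, mem_inter, mem_insert]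
    constructor
    · rintro ⟨h1 | h1, h2⟩
      · rcases h2 with h2 | h2
        · exact absurd (h1.symm.trans h2) hbb
        · have := xt_bd hu (by omega) hj h2; omega
      · exact h1
    · intro h; exact ⟨Or.inr h, Or.inr (hsub h)⟩
  rw [hmain, card_xt u i hi]; omega

theorem gadget_top (u : ℕ) (hu : 4 ≤ u) :
    IsGadget (u + 2) (u + 1) (Fin (u + 2 + (u + 1) + 1)) (fun i => lift _ (zt u i))
      (lift _ (range (2 * u + 2))) := by
  have hbd : ∀ i, 1 ≤ i → i ≤ u + 2 → ∀ x ∈ zt u i, x < 2 * u + 2 := by
    intro i hi hi' x hx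
    simp only [zt, mem_insert] at hx
    rcases hx with rfl | hx
    · have := bt_lt hu hi'; omega
    · exact (xt_bd hu hi hi' hx).2
  refine ⟨by simp, ?_, ?_, ?_, ?_⟩
  · intro i hi hi'
    rw [card_lift]
    · rw [zt, card_insert_of_notMem, card_xt u i hi]
      · omega
      · intro hx; have := (xt_bd hu hi hi' hx).1; have := bt_lt hu hi'; omega
    · intro x hx; have := hbd i hi hi' x hx; omega
  · intro i j hi hij hj
    rw [lift_inter, card_lift]
    · exact zt_inter u i j hu hi hij hj
    · intro x hx; have := hbd j (by omega) hj x (mem_inter.mp hx).2; omega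
  · intro i hi hi'
    apply lift_mono
    intro x hx; rw [mem_range]; exact hbd i hi hi' x hx
  · rw [card_lift]
    · simp; ring
    · intro x hx; simp only [mem_range] at hx; omega

theorem gadget_top_Y (u : ℕ) (hu : 4 ≤ u) (i : ℕ) (hi : 1 ≤ i) (hi' : i ≤ u + 2) :
    (lift (u + 2 + (u + 1) + 1) (range u) ∩ lift _ (zt u i)).card = 1 := by
  have : range u ∩ zt u i = {bt i} := by
    ext x
    simp only [mem_inter, mem_range, zt, mem_insert, mem_singleton]
    constructor
    · rintro ⟨h1, h2 | h2⟩
      · exact h2
      · have := (xt_bd hu hi hi' h2).1; omega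
    · rintro rfl; exact ⟨bt_lt hu hi', Or.inl rfl⟩
  rw [lift_inter, this, card_lift]
  · simp
  · intro x hx; simp only [mem_singleton] at hx; have := bt_lt hu hi'; omega

/-! ### the base case: 13 sets in an 80-element universe -/

/-- the subset of `Fin n` with a given bit mask -/
def bm (n a : ℕ) : Finset (Fin n) := univ.filter (fun x => a.testBit x = true)

def mA : ℕ → ℕ
  | 1 => 604462909807318885491372
  | 2 => 382540508432685217418578
  | 3 => 524777692226494625516882
  | 4 => 599875353294612629525834
  | 5 => 1186334166788856577760633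
  | 6 => 593824891258502365814521
  | _ => 0

def mB : ℕ → ℕ
  | 1 => 7
  | 2 => 30
  | 3 => 486
  | 4 => 32518
  | 5 => 8380678
  | 6 => 8588910854
  | _ => 0

theorem base : IsState 6 6 (Fin 80) (fun i => bm 80 (mA i)) (fun k => bm 80 (mB k))
    (bm 80 8060428550) := by
  refine ⟨by simp [Nat.choose], ?_, ?_, ?_, ?_, ?_, ?_, ?_, ?_⟩
  · intro k h1 h2; interval_cases k <;> decide +kernel
  · intro k l h1 h2 h3; interval_cases l <;> interval_cases k <;> decide +kernel
  · intro i k h1 h2 h3 h4; interval_cases i <;> interval_cases k <;> decide +kernel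
  · intro i h1 h2; interval_cases i <;> decide +kernel
  · intro i j h1 h2 h3; interval_cases j <;> interval_cases i <;> decide +kernel
  · decide +kernel
  · intro k h1 h2; interval_cases k <;> decide +kernel
  · intro k h1 h2; interval_cases k <;> decide +kernel

/-! ### small families -/

theorem realizable_of_pairs {m n : ℕ} (A : Fin m → Finset (Fin n)) (hinj : Function.Injective A)
    (h : ((univ.filter (fun p : Fin m × Fin m => p.1 < p.2)).image
      (fun p => (A p.1 ∩ A p.2).card)).card =
      (univ.filter (fun p : Fin m × Fin m => p.1 < p.2)).card) : Realizable m n := by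
  refine ⟨A, hinj, ?_⟩
  intro i j k l hij hkl he
  have h1 := card_image_iff.mp h
  have h2 : (i, j) ∈ (univ.filter (fun p : Fin m × Fin m => p.1 < p.2)) := by simpa using hij
  have h3 : (k, l) ∈ (univ.filter (fun p : Fin m × Fin m => p.1 < p.2)) := by simpa using hkl
  have h4 := h1 h2 h3 he
  exact ⟨congrArg Prod.fst h4, congrArg Prod.snd h4⟩

theorem small2 : Realizable 2 1 :=
  realizable_of_pairs (fun i => bm 1 ((![0, 1] : Fin 2 → ℕ) i))
    (by decide +kernel) (by decide +kernel)

theorem small3 : Realizable 3 3 :=
  realizable_of_pairs (fun i => bm 3 ((![4, 3, 7] : Fin 3 → ℕ) i))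
    (by decide +kernel) (by decide +kernel)

theorem small4 : Realizable 4 7 :=
  realizable_of_pairs (fun i => bm 7 ((![96, 30, 95, 125] : Fin 4 → ℕ) i))
    (by decide +kernel) (by decide +kernel)

theorem small5 : Realizable 5 11 :=
  realizable_of_pairs (fun i => bm 11 ((![1792, 1272, 255, 1015, 2047] : Fin 5 → ℕ) i))
    (by decide +kernel) (by decide +kernel)

theorem small6 : Realizable 6 17 :=
  realizable_of_pairs (fun i => bm 17 ((![122880, 73664, 8126, 122431, 106367, 131071] : Fin 6 → ℕ) i))
    (by decide +kernel) (by decide +kernel)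

theorem small7 : Realizable 7 23 :=
  realizable_of_pairs (fun i => bm 23 ((![8126464, 4455936, 258558, 6540799, 8105981, 6029311, 8384511] : Fin 7 → ℕ) i))
    (by decide +kernel) (by decide +kernel)

theorem small8 : Realizable 8 30 :=
  realizable_of_pairs (fun i => bm 30 ((![1073741823, 1073741816, 1073741793, 1073741586, 1073733731, 1071652195, 940643786,
    164380] : Fin 8 → ℕ) i))
    (by decide +kernel) (by decide +kernel)

theorem small9 : Realizable 9 38 :=
  realizable_of_pairs (fun i => bm 38 ((![274877906943, 274877906936, 274877906916, 274877906460, 274877874652, 274877388978,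
    274744066482, 257769429322, 10053] : Fin 9 → ℕ) i))
    (by decide +kernel) (by decide +kernel)

theorem small10 : Realizable 10 47 :=
  realizable_of_pairs (fun i => bm 47 ((![140737488355327, 140737488355320, 140737488355297, 140737488354841, 140737488323001,
    140737487835860, 140737455079875, 140735340882540, 136339609825989, 52506] : Fin 10 → ℕ) i))
    (by decide +kernel) (by decide +kernel)

theorem small11 : Realizable 11 57 :=
  realizable_of_pairs (fun i => bm 57 ((![144115188075855871, 144115188075855864, 144115188075855844, 144115188075855388,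
    144115188075848009, 144115188074810825, 144115188059472038, 144115185928966202,
    144112989657924210, 143552238391545114, 4240069] : Fin 11 → ℕ) i))
    (by decide +kernel) (by decide +kernel)

theorem small12 : Realizable 12 68 :=
  realizable_of_pairs (fun i => bm 68 ((![295147905179352825855, 295147905179352825848, 295147905179352825828,
    295147905179352825609, 295147905179352817817, 295147905179352306346,
    295147905179336321094, 295147905177205409586, 295147900781742550566,
    295146779296911078353, 293994983687908067666, 5395621] : Fin 12 → ℕ) i))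
    (by decide +kernel) (by decide +kernel)

/-! ### lower bounds -/

section lower
variable {m n : ℕ} {A : Fin m → Finset (Fin n)}

theorem IntersectionDistinct.symm_form (h : IntersectionDistinct A) {a b c d : Fin m}
    (hab : a ≠ b) (hcd : c ≠ d) (he : (A a ∩ A b).card = (A c ∩ A d).card) :
    (a = c ∧ b = d) ∨ (a = d ∧ b = c) := by
  rcases lt_or_gt_of_ne hab with h1 | h1 <;> rcases lt_or_gt_of_ne hcd with h2 | h2
  · exact Or.inl (h.2 a b c d h1 h2 he)
  · rw [inter_comm (A c)] at he
    exact Or.inr (h.2 a b d c h1 h2 he)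
  · rw [inter_comm (A a)] at he
    have := h.2 b a c d h1 h2 he
    exact Or.inr ⟨this.2, this.1⟩
  · rw [inter_comm (A a), inter_comm (A c)] at he
    have := h.2 b a d c h1 h2 he
    exact Or.inl ⟨this.2, this.1⟩

/-- two pairs sharing an index with the same value have the same other index -/
theorem IntersectionDistinct.right_inj (h : IntersectionDistinct A) {a b c : Fin m}
    (hab : a ≠ b) (hac : a ≠ c) (he : (A a ∩ A b).card = (A a ∩ A c).card) : b = c := by
  rcases h.symm_form hab hac he with h1 | h1
  · exact h1.2
  · exact absurd h1.1 hac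

theorem inter_lt (h : IntersectionDistinct A) {a b : Fin m} (hab : a ≠ b) :
    (A a ∩ A b).card < n := by
  have h1 : (A a ∩ A b).card ≤ n := by simpa using card_le_univ (A a ∩ A b)
  rcases lt_or_eq_of_le h1 with h2 | h2
  · exact h2
  · exfalso
    have h3 : A a ∩ A b = univ := by
      apply eq_univ_of_card; simpa using h2
    have h4 : A a = univ := by
      apply univ_subset_iff.mp; rw [← h3]; exact inter_subset_left
    have h5 : A b = univ := by
      apply univ_subset_iff.mp; rw [← h3]; exact inter_subset_right
    exact hab (h.1 (h4.trans h5.symm))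

/-- the pairs of indices -/
def pairs (m : ℕ) : Finset (Fin m × Fin m) := univ.filter (fun p => p.1 < p.2)

theorem card_pairs (m : ℕ) : (pairs m).card = m.choose 2 := by
  have h1 : (pairs m).card = ∑ j : Fin m, (j : ℕ) := by
    rw [card_eq_sum_card_fiberwise (f := Prod.snd) (t := univ) (by intro x _; simp)]
    apply sum_congr rfl
    intro j _
    have : (pairs m).filter (fun p => p.2 = j) = (Iio j).map ⟨fun i => (i, j), by
        intro a b hab; exact (Prod.mk.inj hab).1⟩ := by
      ext ⟨a, b⟩
      simp only [pairs, mem_filter, mem_univ, true_and, mem_map, mem_Iio]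
      constructor
      · rintro ⟨h1, rfl⟩; exact ⟨a, h1, rfl⟩
      · rintro ⟨c, h1, h2⟩; cases h2; exact ⟨h1, rfl⟩
    rw [this, card_map, Fin.card_Iio]
  rw [h1, Fin.sum_univ_eq_sum_range (fun i => i) m, sum_range_id, Nat.choose_two_right]

/-- `v` is the size of some pairwise intersection -/
def Attained (A : Fin m → Finset (Fin n)) (v : ℕ) : Prop :=
  ∃ a b : Fin m, a ≠ b ∧ (A a ∩ A b).card = v

theorem le_of_missing (h : IntersectionDistinct A) (M : Finset ℕ) (hM : ∀ v ∈ M, v < n)
    (hna : ∀ v ∈ M, ¬ Attained A v) : m.choose 2 + M.card ≤ n := by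
  have h1 : ((pairs m).image (fun p => (A p.1 ∩ A p.2).card)).card = m.choose 2 := by
    rw [card_image_of_injOn, card_pairs]
    intro p hp q hq he
    have hp' : p.1 < p.2 := by simpa [pairs] using hp
    have hq' : q.1 < q.2 := by simpa [pairs] using hq
    have := h.2 p.1 p.2 q.1 q.2 hp' hq' he
    exact Prod.ext this.1 this.2
  have h2 : Disjoint ((pairs m).image (fun p => (A p.1 ∩ A p.2).card)) M := by
    rw [disjoint_left]
    intro v hv hv'
    obtain ⟨p, hp, rfl⟩ := mem_image.mp hv
    have hp' : p.1 < p.2 := by simpa [pairs] using hp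
    exact hna _ hv' ⟨p.1, p.2, hp'.ne, rfl⟩
  have h3 : ((pairs m).image (fun p => (A p.1 ∩ A p.2).card)) ∪ M ⊆ range n := by
    intro v hv
    rw [mem_range]
    rcases mem_union.mp hv with hv | hv
    · obtain ⟨p, hp, rfl⟩ := mem_image.mp hv
      have hp' : p.1 < p.2 := by simpa [pairs] using hp
      exact inter_lt h hp'.ne
    · exact hM v hv
  have h4 := card_le_card h3
  rw [card_union_of_disjoint h2, h1, card_range] at h4
  exact h4

theorem lb0 (h : IntersectionDistinct A) : m.choose 2 ≤ n := by
  simpa using le_of_missing h ∅ (by simp) (by simp)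

/-- if `n - 1` is attained then there are `p, q, x` with `A p = univ`, `A q = univ \ {x}`. -/
theorem top_pair (h : IntersectionDistinct A) (hn : 1 ≤ n) (hat : Attained A (n - 1)) :
    ∃ p q : Fin m, ∃ x : Fin n, p ≠ q ∧ A p = univ ∧ A q = univ \ {x} := by
  have key : ∀ p q : Fin m, p ≠ q → (A p ∩ A q).card = n - 1 → (A p).card = n →
      ∃ p q : Fin m, ∃ x : Fin n, p ≠ q ∧ A p = univ ∧ A q = univ \ {x} := by
    intro p q hpq he hp
    have h1 : A p = univ := by apply eq_univ_of_card; simpa using hp
    rw [h1, univ_inter] at he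
    have h2 : (univ \ A q).card = 1 := by
      have := card_sdiff_add_card_eq_card (subset_univ (A q))
      rw [card_univ, Fintype.card_fin] at this
      omega
    obtain ⟨x, hx⟩ := card_eq_one.mp h2
    refine ⟨p, q, x, hpq, h1, ?_⟩
    rw [← hx]; simp
  obtain ⟨p, q, hpq, he⟩ := hat
  have hp1 : (A p ∩ A q).card ≤ (A p).card := card_le_card inter_subset_left
  have hq1 : (A p ∩ A q).card ≤ (A q).card := card_le_card inter_subset_right
  have hp2 : (A p).card ≤ n := by simpa using card_le_univ (A p)
  have hq2 : (A q).card ≤ n := by simpa using card_le_univ (A q)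
  by_cases hp : (A p).card = n
  · exact key p q hpq he hp
  by_cases hq : (A q).card = n
  · exact key q p hpq.symm (by rw [inter_comm]; exact he) hq
  exfalso
  have e1 : A p ∩ A q = A p := eq_of_subset_of_card_le inter_subset_left (by omega)
  have e2 : A p ∩ A q = A q := eq_of_subset_of_card_le inter_subset_right (by omega)
  exact hpq (h.1 (e1.symm.trans e2))

section caseI
variable {p q : Fin m} {x : Fin n}

theorem mem_x (h : IntersectionDistinct A) (hpq : p ≠ q) (hp : A p = univ)
    (hq : A q = univ \ {x}) {j : Fin m} (hj : j ≠ q) : x ∈ A j := by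
  by_cases hjp : j = p
  · rw [hjp, hp]; simp
  by_contra hx
  have h1 : A j ∩ A q = A j ∩ A p := by
    rw [hp, hq]; ext y; simp only [mem_inter, mem_sdiff, mem_univ, mem_singleton, true_and,
      and_true, and_iff_left_iff_imp]
    rintro hy rfl; exact hx hy
  exact hpq.symm (h.right_inj hj hjp (by rw [h1]))

theorem card_inter_q (hq : A q = univ \ {x}) {j : Fin m} (hx : x ∈ A j) :
    (A j ∩ A q).card + 1 = (A j).card := by
  have : A j ∩ A q = (A j).erase x := by
    rw [hq]; ext y; simp [and_comm]
  rw [this, card_erase_add_one hx]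

theorem exists_not_mem (s : Finset (Fin m)) (hs : s.card < m) : ∃ k : Fin m, k ∉ s := by
  by_contra hcon
  push Not at hcon
  have : s = univ := by ext y; simp [hcon y]
  rw [this] at hs; simp at hs

theorem not_attained_zero (h : IntersectionDistinct A) (hm : 4 ≤ m) (hpq : p ≠ q)
    (hp : A p = univ) (hq : A q = univ \ {x}) : ¬ Attained A 0 := by
  have key : ∀ a : Fin m, a ≠ q → (A a ∩ A q).card = 0 → False := by
    intro a ha h0
    have hxa := mem_x h hpq hp hq ha
    have h1 := card_inter_q hq hxa
    have h2 : A a = {x} := by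
      have : (A a).card = 1 := by omega
      obtain ⟨y, hy⟩ := card_eq_one.mp this
      rw [hy] at hxa ⊢
      rw [mem_singleton.mp hxa]
    have h3 : ∀ k, k ≠ q → k ≠ a → (A a ∩ A k).card = 1 := by
      intro k hk _
      have : A a ∩ A k = {x} := by
        rw [h2]; ext y; simp only [mem_inter, mem_singleton, and_iff_left_iff_imp]
        rintro rfl; exact mem_x h hpq hp hq hk
      rw [this]; simp
    obtain ⟨k, hk⟩ := exists_not_mem {a, q} (lt_of_le_of_lt card_le_two (by omega))
    obtain ⟨l, hl⟩ := exists_not_mem {a, q, k} (lt_of_le_of_lt card_le_three (by omega))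
    simp only [mem_insert, mem_singleton, not_or] at hk hl
    have := h.right_inj (Ne.symm hk.1) (Ne.symm hl.1)
      ((h3 k hk.2 hk.1).trans (h3 l hl.2.1 hl.1).symm)
    exact hl.2.2 this.symm
  rintro ⟨a, b, hab, h0⟩
  by_cases ha : a = q
  · subst ha
    exact key b hab.symm (by rw [inter_comm]; exact h0)
  by_cases hb : b = q
  · subst hb
    exact key a ha h0
  have : x ∈ A a ∩ A b := mem_inter.mpr ⟨mem_x h hpq hp hq ha, mem_x h hpq hp hq hb⟩
  rw [card_eq_zero.mp h0] at this
  simp at this

end caseI

theorem lb1 (h : IntersectionDistinct A) (hm : 4 ≤ m) : m.choose 2 + 1 ≤ n := by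
  have h0 := lb0 h
  have h6 : 6 ≤ m.choose 2 := by
    calc 6 = (4).choose 2 := by decide
      _ ≤ m.choose 2 := Nat.choose_le_choose 2 hm
  by_cases hat : Attained A (n - 1)
  · obtain ⟨p, q, x, hpq, hp, hq⟩ := top_pair h (by omega) hat
    have := le_of_missing h {0} (by simp; omega)
      (by simpa using not_attained_zero h hm hpq hp hq)
    simpa using this
  · have := le_of_missing h {n - 1} (by simp; omega) (by simpa using hat)
    simpa using this

/-- sizes of the sets -/
theorem size_ge (h : IntersectionDistinct A) (j : Fin m) : m ≤ (A j).card + 2 := by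
  have h1 : (univ.erase j).card ≤ (range ((A j).card + 1)).card := by
    apply card_le_card_of_injOn (fun k => (A j ∩ A k).card)
    · intro k _
      simp only [coe_range, Set.mem_Iio]
      exact Nat.lt_succ_of_le (card_le_card inter_subset_left)
    · intro k hk l hl he
      simp only [coe_erase, coe_univ, Set.mem_sdiff, Set.mem_univ, Set.mem_singleton_iff,
        true_and] at hk hl
      exact h.right_inj (Ne.symm hk) (Ne.symm hl) he
  rw [card_erase_of_mem (mem_univ j), card_univ, Fintype.card_fin, card_range] at h1
  omega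

theorem card_inter_add (S T : Finset (Fin n)) : (S ∩ T).card + (S \ T).card = S.card := by
  rw [add_comm]; exact card_sdiff_add_card_inter S T

theorem two_le_of_ne {x y z : ℕ} (hx : x ≤ 1) (hy : y ≤ 1) (hxy : x ≠ y) (h1 : z ≠ x)
    (h2 : z ≠ y) : 2 ≤ z := by omega

/-- Case II -/
theorem caseII (h : IntersectionDistinct A) (hm : 6 ≤ m) (hn : 3 ≤ n)
    (h0 : Attained A 0) (h2 : Attained A (n - 2)) (h3 : Attained A (n - 3)) : False := by
  obtain ⟨a, b, hab, he0⟩ := h0
  obtain ⟨p, q, hpq, he2⟩ := h2
  obtain ⟨c, d, hcd, he3⟩ := h3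
  have hdisj : A a ∩ A b = ∅ := card_eq_zero.mp he0
  have hsa := size_ge h a
  have hsb := size_ge h b
  -- complement cardinalities
  have hcompl : ∀ j, (A j).card + (univ \ A j).card = n := by
    intro j
    have := card_sdiff_add_card_eq_card (subset_univ (A j))
    rw [card_univ, Fintype.card_fin] at this; omega
  -- |A_a| + |A_b| ≤ n
  have hsum : (A a).card + (A b).card ≤ n := by
    have := card_union_add_card_inter (A a) (A b)
    have h4 : (A a ∪ A b).card ≤ n := by simpa using card_le_univ (A a ∪ A b)
    omega
  have big : ∀ j k, (A j ∩ A k).card + 3 ≥ n → a ≠ j ∧ b ≠ j := by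
    intro j k hjk
    have h5 : (A j ∩ A k).card ≤ (A j).card := card_le_card inter_subset_left
    constructor <;> (rintro rfl; omega)
  -- union of complements
  have hbs : ∀ j, (A a \ A j).card + (A b \ A j).card ≤ (univ \ A j).card := by
    intro j
    rw [← card_union_of_disjoint]
    · apply card_le_card
      intro y hy
      simp only [mem_union, mem_sdiff, mem_univ, true_and] at *
      tauto
    · rw [disjoint_left]
      intro y hy hy'
      have : y ∈ A a ∩ A b := mem_inter.mpr ⟨(mem_sdiff.mp hy).1, (mem_sdiff.mp hy').1⟩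
      rw [hdisj] at this; simp at this
  have hne : ∀ u : Fin m, ∀ r r' : Fin m, u ≠ r → u ≠ r' → r ≠ r' →
      (A u \ A r).card ≠ (A u \ A r').card := by
    intro u r r' hr hr' hrr he
    apply hrr
    apply h.right_inj hr hr'
    have e1 := card_inter_add (A u) (A r)
    have e2 := card_inter_add (A u) (A r')
    omega
  have hpqU : (univ \ (A p ∩ A q)).card = 2 := by
    have := card_sdiff_add_card_eq_card (subset_univ (A p ∩ A q))
    rw [card_univ, Fintype.card_fin] at this; omega
  have hap := big p q (by omega)
  have haq := big q p (by rw [inter_comm]; omega)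
  -- the key bound
  have key : ∀ u v r s : Fin m, A u ∩ A v = ∅ → v ≠ r → v ≠ s → r ≠ s →
      (univ \ (A r ∩ A s)).card = 2 → (A u \ A r).card ≤ 1 := by
    intro u v r s huv hvr hvs hrs hU
    by_contra hcon
    push Not at hcon
    have e1 : A u \ A r = univ \ (A r ∩ A s) := by
      apply eq_of_subset_of_card_le
      · intro y hy
        simp only [mem_sdiff, mem_univ, true_and, mem_inter, not_and] at *
        exact fun hh => absurd hh hy.2
      · omega
    have e2 : A v \ A r = ∅ := by
      ext y
      simp only [mem_sdiff, notMem_empty, iff_false, not_and, not_not]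
      intro hy
      by_contra hyr
      have : y ∈ A u \ A r := by
        rw [e1]; simp only [mem_sdiff, mem_univ, true_and, mem_inter, not_and]
        exact fun hh => absurd hh hyr
      have : y ∈ A u ∩ A v := mem_inter.mpr ⟨(mem_sdiff.mp this).1, hy⟩
      rw [huv] at this; simp at this
    have e3 : A v \ A s = ∅ := by
      ext y
      simp only [mem_sdiff, notMem_empty, iff_false, not_and, not_not]
      intro hy
      by_contra hys
      have : y ∈ A u \ A r := by
        rw [e1]; simp only [mem_sdiff, mem_univ, true_and, mem_inter, not_and]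
        exact fun _ => hys
      have : y ∈ A u ∩ A v := mem_inter.mpr ⟨(mem_sdiff.mp this).1, hy⟩
      rw [huv] at this; simp at this
    exact hne v r s hvr hvs hrs (by rw [e2, e3])
  have hba : A b ∩ A a = ∅ := by rw [inter_comm]; exact hdisj
  have hqpU : (univ \ (A q ∩ A p)).card = 2 := by rw [inter_comm]; exact hpqU
  have k1 := key a b p q hdisj hap.2 haq.2 hpq hpqU
  have k2 := key a b q p hdisj haq.2 hap.2 hpq.symm hqpU
  have k3 := key b a p q hba hap.1 haq.1 hpq hpqU
  have k4 := key b a q p hba haq.1 hap.1 hpq.symm hqpU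
  have n1 := hne a p q hap.1 haq.1 hpq
  have n2 := hne b p q hap.2 haq.2 hpq
  -- a third index
  have third : ∀ r s : Fin m, r ≠ s → (A r ∩ A s).card = n - 3 → r ≠ p → r ≠ q → False := by
    intro r s hrs hers hrp hrq
    have har := big r s (by omega)
    have m1 := hne a r p har.1 hap.1 hrp
    have m2 := hne a r q har.1 haq.1 hrq
    have m3 := hne b r p har.2 hap.2 hrp
    have m4 := hne b r q har.2 haq.2 hrq
    have m5 := hbs r
    have m6 := hcompl r
    have m7 : (A r ∩ A s).card ≤ (A r).card := card_le_card inter_subset_left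
    have t1 := two_le_of_ne k1 k2 n1 m1 m2
    have t2 := two_le_of_ne k3 k4 n2 m3 m4
    clear m1 m2 m3 m4 n1 n2 k1 k2 k3 k4 hne key
    omega
  by_cases c1 : c = p
  · by_cases d1 : d = q
    · rw [c1, d1] at he3; omega
    · exact third d c hcd.symm (by rw [inter_comm]; exact he3)
        (by rw [← c1]; exact hcd.symm) d1
  · by_cases c2 : c = q
    · by_cases d1 : d = p
      · rw [c2, d1, inter_comm] at he3; omega
      · exact third d c hcd.symm (by rw [inter_comm]; exact he3) d1
          (by rw [← c2]; exact hcd.symm)
    · exact third c d hcd he3 c1 c2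

/-- Case I -/
theorem caseI (h : IntersectionDistinct A) (hm : 6 ≤ m) (hn : 6 ≤ n)
    (h1 : Attained A (n - 1)) (h2 : Attained A (n - 2)) (h3 : Attained A 1) : False := by
  obtain ⟨p, q, x, hpq, hp, hq⟩ := top_pair h (by omega) h1
  have hx : ∀ j, j ≠ q → x ∈ A j := fun j hj => mem_x h hpq hp hq hj
  have hcq : (A q).card + 1 = n := by
    have := card_inter_q (A := A) (q := q) hq (hx p hpq)
    rw [hp, univ_inter, card_univ, Fintype.card_fin] at this
    exact this
  have hcp : ∀ j, (A j ∩ A p).card = (A j).card := by intro j; rw [hp, inter_univ]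
  have hle : ∀ j, (A j).card ≤ n := by intro j; simpa using card_le_univ (A j)
  have hltn : ∀ j, j ≠ p → (A j).card < n := by
    intro j hj; have := inter_lt h hj; rw [hcp] at this; exact this
  have hne1 : ∀ j, j ≠ p → j ≠ q → (A j).card ≠ n - 1 := by
    intro j hj hjq he
    have : (A p ∩ A j).card = (A p ∩ A q).card := by
      rw [inter_comm, hcp, inter_comm, hcp]; omega
    exact hjq (h.right_inj (Ne.symm hj) hpq this)
  -- the set of size n - 2
  obtain ⟨r, hrp, hrq, hr⟩ : ∃ r, r ≠ p ∧ r ≠ q ∧ (A r).card = n - 2 := by
    obtain ⟨c, d, hcd, he⟩ := h2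
    have aux : ∀ c d : Fin m, c ≠ d → (A c ∩ A d).card = n - 2 → c ≠ p → c ≠ q →
        (A c).card = n - 2 := by
      intro c d hcd he hc1 hc2
      have h4 : (A c ∩ A d).card ≤ (A c).card := card_le_card inter_subset_left
      have := hltn c hc1
      have := hne1 c hc1 hc2
      omega
    by_cases c1 : c = p
    · by_cases d1 : d = q
      · exfalso; rw [c1, d1, inter_comm, hcp] at he; omega
      · exact ⟨d, by rw [← c1]; exact hcd.symm, d1,
          aux d c hcd.symm (by rw [inter_comm]; exact he) (by rw [← c1]; exact hcd.symm) d1⟩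
    · by_cases c2 : c = q
      · by_cases d1 : d = p
        · exfalso; rw [c2, d1, hcp] at he; omega
        · exact ⟨d, d1, by rw [← c2]; exact hcd.symm,
            aux d c hcd.symm (by rw [inter_comm]; exact he) d1 (by rw [← c2]; exact hcd.symm)⟩
      · exact ⟨c, c1, c2, aux c d hcd he c1 c2⟩
  have hrU : (univ \ A r).card = 2 := by
    have := card_sdiff_add_card_eq_card (subset_univ (A r))
    rw [card_univ, Fintype.card_fin] at this; omega
  -- all other sets contain the complement of A r
  have hsub : ∀ j, j ≠ p → j ≠ q → j ≠ r → A j \ A r = univ \ A r := by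
    intro j hjp hjq hjr
    apply eq_of_subset_of_card_le (sdiff_subset_sdiff (subset_univ _) (le_refl _))
    rw [hrU]
    by_contra hcon
    push Not at hcon
    have e := card_inter_add (A j) (A r)
    rcases Nat.lt_or_ge (A j \ A r).card 1 with h4 | h4
    · have : (A j ∩ A r).card = (A j ∩ A p).card := by rw [hcp]; omega
      exact hrp (h.right_inj hjr hjp this)
    · have e2 := card_inter_q (A := A) (q := q) hq (hx j hjq)
      have : (A j ∩ A r).card = (A j ∩ A q).card := by omega
      exact hrq (h.right_inj hjr hjq this)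
  have hxr : x ∈ A r := hx r hrq
  have hT : (insert x (univ \ A r)).card = 3 := by
    rw [card_insert_of_notMem (by simpa using hxr), hrU]
  have hsubT : ∀ j, j ≠ p → j ≠ q → j ≠ r → insert x (univ \ A r) ⊆ A j := by
    intro j hjp hjq hjr y hy
    rcases mem_insert.mp hy with rfl | hy
    · exact hx j hjq
    · rw [← hsub j hjp hjq hjr] at hy; exact (mem_sdiff.mp hy).1
  have hge3 : ∀ j, j ≠ p → j ≠ q → j ≠ r → 3 ≤ (A j).card := by
    intro j hjp hjq hjr
    rw [← hT]; exact card_le_card (hsubT j hjp hjq hjr)
  -- value 1
  obtain ⟨a, b, hab, he⟩ := h3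
  have main : ∀ a b : Fin m, a ≠ b → (A a ∩ A b).card = 1 → b ≠ p → b ≠ q → b ≠ r → False := by
    intro a b hab he hbp hbq hbr
    have hb3 := hge3 b hbp hbq hbr
    by_cases hap : a = p
    · rw [hap, inter_comm, hcp] at he; omega
    by_cases haq : a = q
    · rw [haq, inter_comm] at he
      have := card_inter_q (A := A) (q := q) hq (hx b hbq)
      omega
    by_cases har : a = r
    · rw [har, inter_comm] at he
      have e := card_inter_add (A b) (A r)
      rw [hsub b hbp hbq hbr, hrU, he] at e
      have e3 : insert x (univ \ A r) = A b :=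
        eq_of_subset_of_card_le (hsubT b hbp hbq hbr) (by omega)
      obtain ⟨k, hk⟩ := exists_not_mem {p, q, r, b} (lt_of_le_of_lt card_le_four (by omega))
      simp only [mem_insert, mem_singleton, not_or] at hk
      have e4 : A b ∩ A k = A b := by
        rw [inter_eq_left, ← e3]; exact hsubT k hk.1 hk.2.1 hk.2.2.1
      have : (A b ∩ A k).card = (A b ∩ A p).card := by rw [e4, hcp]
      exact hk.1 (h.right_inj (Ne.symm hk.2.2.2) hbp this)
    · have : insert x (univ \ A r) ⊆ A a ∩ A b :=
        subset_inter (hsubT a hap haq har) (hsubT b hbp hbq hbr)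
      have := card_le_card this
      omega
  by_cases hb : b ≠ p ∧ b ≠ q ∧ b ≠ r
  · exact main a b hab he hb.1 hb.2.1 hb.2.2
  by_cases ha : a ≠ p ∧ a ≠ q ∧ a ≠ r
  · exact main b a hab.symm (by rw [inter_comm]; exact he) ha.1 ha.2.1 ha.2.2
  -- both in {p, q, r}
  have hbig : ∀ j, ¬ (j ≠ p ∧ j ≠ q ∧ j ≠ r) → n ≤ (A j).card + 2 := by
    intro j hj
    by_cases j1 : j = p
    · rw [j1, hp, card_univ, Fintype.card_fin]; omega
    by_cases j2 : j = q
    · rw [j2]; omega
    by_cases j3 : j = r
    · rw [j3]; omega
    · exact absurd ⟨j1, j2, j3⟩ hj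
  have e1 := hbig a ha
  have e2 := hbig b hb
  have e3 := card_union_add_card_inter (A a) (A b)
  have e4 : (A a ∪ A b).card ≤ n := by simpa using card_le_univ (A a ∪ A b)
  omega

theorem lb2 (h : IntersectionDistinct A) (hm : 6 ≤ m) : m.choose 2 + 2 ≤ n := by
  have h0 := lb0 h
  have h6 : 15 ≤ m.choose 2 := by
    calc 15 = (6).choose 2 := by decide
      _ ≤ m.choose 2 := Nat.choose_le_choose 2 hm
  have two : ∀ v w, v < n → w < n → v ≠ w → ¬ Attained A v → ¬ Attained A w →
      m.choose 2 + 2 ≤ n := by
    intro v w hv hw hvw hv' hw'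
    have := le_of_missing h {v, w} (by simp; omega) (by
      intro y hy; rcases mem_insert.mp hy with rfl | hy
      · exact hv'
      · rw [mem_singleton.mp hy]; exact hw')
    rwa [card_pair hvw] at this
  by_cases hat : Attained A (n - 1)
  · obtain ⟨p, q, x, hpq, hp, hq⟩ := top_pair h (by omega) hat
    have hz := not_attained_zero h (by omega) hpq hp hq
    by_cases h2 : Attained A (n - 2)
    · by_cases h3 : Attained A 1
      · exact (caseI h hm (by omega) hat h2 h3).elim
      · exact two 0 1 (by omega) (by omega) (by omega) hz h3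
    · exact two 0 (n - 2) (by omega) (by omega) (by omega) hz h2
  · by_cases hz : Attained A 0
    · by_cases h2 : Attained A (n - 2)
      · by_cases h3 : Attained A (n - 3)
        · exact (caseII h hm (by omega) hz h2 h3).elim
        · exact two (n - 1) (n - 3) (by omega) (by omega) (by omega) hat h3
      · exact two (n - 1) (n - 2) (by omega) (by omega) (by omega) hat h2
    · exact two (n - 1) 0 (by omega) (by omega) (by omega) hat hz

end lower

/-! ### from states to families -/

theorem choose_two_add_lt {k l k' l' : ℕ} (hk : k < l) (hk' : k' < l')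
    (he : l.choose 2 + k = l'.choose 2 + k') : k = k' ∧ l = l' := by
  have key : ∀ {a b c d : ℕ}, a < b → b < d → b.choose 2 + a < d.choose 2 + c := by
    intro a b c d hab hbd
    have h1 : (b + 1).choose 2 ≤ d.choose 2 := Nat.choose_le_choose 2 hbd
    rw [choose_two_succ] at h1
    omega
  rcases lt_trichotomy l l' with h | h | h
  · have := key (c := k') hk h; omega
  · subst h; omega
  · have := key (c := k) hk' h; omega

/-- A family of sets whose intersections have the sizes `N - 1 - l.choose 2 - k`, `k < l`,
gives an intersection-distinct family. -/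
theorem realizable_of_formula {V : Type} [Fintype V] [DecidableEq V] {m n N : ℕ}
    (hV : Fintype.card V = n) (hm : 3 ≤ m) (S : ℕ → Finset V)
    (h : ∀ k l, k < l → l < m → (S k ∩ S l).card + l.choose 2 + k + 1 = N) :
    Realizable m n := by
  let e : V ≃ Fin n := Fintype.equivFinOfCardEq hV
  let A : Fin m → Finset (Fin n) := fun i => (S i).map e.toEmbedding
  have hA : ∀ i j : Fin m, (A i ∩ A j).card = (S i ∩ S j).card := by
    intro i j
    simp only [A]
    rw [← map_inter, card_map]
  have hd : ∀ i j k l : Fin m, i < j → k < l → (A i ∩ A j).card = (A k ∩ A l).card →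
      i = k ∧ j = l := by
    intro i j k l hij hkl he
    rw [hA, hA] at he
    have h1 := h i j hij j.isLt
    have h2 := h k l hkl l.isLt
    have h3 : (i : ℕ) < j := hij
    have h4 : (k : ℕ) < l := hkl
    have := choose_two_add_lt h3 h4 (by omega)
    exact ⟨Fin.ext this.1, Fin.ext this.2⟩
  refine ⟨A, ?_, hd⟩
  intro a b hab
  by_contra hne
  obtain ⟨k, hk⟩ : ∃ k : Fin m, k ∉ ({a, b} : Finset (Fin m)) := by
    by_contra hcon
    push Not at hcon
    have h5 : ({a, b} : Finset (Fin m)) = univ := by ext y; simp [hcon y]
    have h6 := card_le_two (a := a) (b := b)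
    rw [h5, card_univ, Fintype.card_fin] at h6
    omega
  simp only [mem_insert, mem_singleton, not_or] at hk
  have he : (A a ∩ A k).card = (A b ∩ A k).card := by rw [hab]
  rcases lt_or_gt_of_ne hk.1 with h1 | h1 <;> rcases lt_or_gt_of_ne hk.2 with h2 | h2
  · rw [inter_comm, inter_comm (A b)] at he
    exact hne (hd k a k b h1 h2 he).2
  · rw [inter_comm] at he
    exact hk.2 (hd k a b k h1 h2 he).1
  · rw [inter_comm (A b)] at he
    exact hk.1 (hd a k k b h1 h2 he).1.symm
  · exact hne (hd a k b k h1 h2 he).1

theorem realizable_of_state {s t : ℕ} {V : Type} [Fintype V] [DecidableEq V]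
    {A B : ℕ → Finset V} {C : Finset V} (h : IsState s t V A B C) (hst : 2 ≤ s + t) :
    Realizable (s + t + 1) ((s + t + 1).choose 2 + 2) := by
  have card_add (X Y : Finset V) : (X ∩ Y).card + (X \ Y).card = X.card := by
    rw [add_comm]; exact card_sdiff_add_card_inter X Y
  have hU (X : Finset V) : X.card + (univ \ X).card = (s + t + 1).choose 2 + 2 := by
    have := card_sdiff_add_card_eq_card (subset_univ X)
    rw [card_univ, h.cardV] at this; omega
  refine realizable_of_formula (N := (s + t + 1).choose 2) h.cardV (by omega)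
    (fun l => if l = 0 then univ else if l ≤ t then univ \ B l else A (s + t + 1 - l)) ?_
  intro k l hkl hl
  have hl0 : l ≠ 0 := by omega
  by_cases hk0 : k = 0
  · simp only [hk0, hl0, if_true, if_false, univ_inter]
    by_cases hlt : l ≤ t
    · simp only [hlt, if_true]
      have h1 := hU (B l)
      have h2 := h.cardB l (by omega) hlt
      omega
    · simp only [hlt, if_false]
      have h1 := h.cardA (s + t + 1 - l) (by omega) (by omega)
      have h2 : s + t + 1 - (s + t + 1 - l) = l := by omega
      rw [h2] at h1
      omega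
  · simp only [hk0, hl0, if_false]
    by_cases hlt : l ≤ t
    · have hkt : k ≤ t := by omega
      simp only [hlt, hkt, if_true]
      have h1 : (univ \ B k) ∩ (univ \ B l) = univ \ (B k ∪ B l) := by
        ext x; simp [not_or]
      have h2 : (B k ∪ B l).card = (B k \ B l).card + (B l).card := by
        rw [← card_union_of_disjoint sdiff_disjoint, sdiff_union_self_eq_union]
      rw [h1]
      have h3 := hU (B k ∪ B l)
      have h4 := h.cardB l (by omega) hlt
      have h5 := h.BB k l (by omega) hkl hlt
      omega
    · simp only [hlt, if_false]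
      have hA := h.cardA (s + t + 1 - l) (by omega) (by omega)
      have h2 : s + t + 1 - (s + t + 1 - l) = l := by omega
      rw [h2] at hA
      by_cases hkt : k ≤ t
      · simp only [hkt, if_true]
        have h3 : (univ \ B k) ∩ A (s + t + 1 - l) = A (s + t + 1 - l) \ B k := by
          ext x; simp [and_comm]
        have h4 := card_add (A (s + t + 1 - l)) (B k)
        have h5 := h.AB (s + t + 1 - l) k (by omega) (by omega) (by omega) hkt
        rw [h3]
        omega
      · simp only [hkt, if_false]
        have h4 := card_add (A (s + t + 1 - l)) (A (s + t + 1 - k))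
        have h5 := h.AA (s + t + 1 - l) (s + t + 1 - k) (by omega) (by omega) (by omega)
        have h6 : s + t + 1 - (s + t + 1 - k) = k := by omega
        rw [h6] at h5
        rw [inter_comm (A (s + t + 1 - k))]
        omega

/-- a state with `s` small sets and `t` large sets exists -/
def HasState (s t : ℕ) : Prop :=
  ∃ (V : Type) (_ : Fintype V) (_ : DecidableEq V) (A B : ℕ → Finset V) (C : Finset V),
    IsState s t V A B C

theorem hasState_bottom {s : ℕ} (h : HasState s s) : HasState (s + 1) s := by
  obtain ⟨V, i1, i2, A, B, C, hs⟩ := h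
  exact ⟨_, inferInstance, inferInstance, _, _, _, step_bottom hs (gadget_bottom s)⟩

theorem hasState_top {u : ℕ} (hu : 4 ≤ u) (h : HasState (u + 2) (u + 1)) :
    HasState (u + 2) (u + 2) := by
  obtain ⟨V, i1, i2, A, B, C, hs⟩ := h
  refine ⟨_, inferInstance, inferInstance, _, _, _,
    step_top hs (gadget_top u hu) (Y := lift _ (range u)) ?_ ?_ (gadget_top_Y u hu)⟩
  · apply lift_mono
    intro x hx; simp only [mem_range] at *; omega
  · rw [card_lift]
    · simp
    · intro x hx; simp only [mem_range] at hx; omega

theorem hasState_diag (s : ℕ) (hs : 6 ≤ s) : HasState s s := by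
  induction s, hs using Nat.le_induction with
  | base => exact ⟨_, inferInstance, inferInstance, _, _, _, base⟩
  | succ s hs ih =>
    obtain ⟨u, rfl⟩ : ∃ u, s = u + 1 := ⟨s - 1, by omega⟩
    exact hasState_top (by omega) (hasState_bottom ih)

theorem realizable_ge_six (m : ℕ) (hm : 6 ≤ m) : Realizable m (m.choose 2 + 2) := by
  by_cases h13 : 13 ≤ m
  · rcases Nat.even_or_odd' m with ⟨s, hs | hs⟩
    · obtain ⟨V, i1, i2, A, B, C, h⟩ := hasState_bottom (hasState_diag (s - 1) (by omega))
      have h1 := realizable_of_state h (by omega)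
      have h2 : s - 1 + 1 + (s - 1) + 1 = m := by omega
      rwa [h2] at h1
    · obtain ⟨V, i1, i2, A, B, C, h⟩ := hasState_diag s (by omega)
      have h1 := realizable_of_state h (by omega)
      have h2 : s + s + 1 = m := by omega
      rwa [h2] at h1
  · push Not at h13
    interval_cases m
    · exact small6
    · exact small7
    · exact small8
    · exact small9
    · exact small10
    · exact small11
    · exact small12

theorem Realizable.mono_right {m n n' : ℕ} (h : Realizable m n) (hn : n ≤ n') :
    Realizable m n' := by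
  obtain ⟨A, hA⟩ := h
  refine ⟨fun i => (A i).map (Fin.castLEEmb hn), ?_, ?_⟩
  · intro i j hij
    exact hA.1 (map_injective _ hij)
  · intro i j k l hij hkl he
    rw [← map_inter, card_map, ← map_inter, card_map] at he
    exact hA.2 i j k l hij hkl he

theorem Realizable.mono_left {m m' n : ℕ} (h : Realizable m n) (hm : m' ≤ m) :
    Realizable m' n := by
  obtain ⟨A, hA⟩ := h
  refine ⟨fun i => A (Fin.castLE hm i), ?_, ?_⟩
  · intro i j hij
    exact Fin.castLE_injective hm (hA.1 hij)
  · intro i j k l hij hkl he
    have := hA.2 (Fin.castLE hm i) (Fin.castLE hm j) (Fin.castLE hm k) (Fin.castLE hm l) hij hkl he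
    exact ⟨Fin.castLE_injective hm this.1, Fin.castLE_injective hm this.2⟩

theorem not_realizable_three {n : ℕ} (hn : n < 3) : ¬ Realizable 3 n := by
  rintro ⟨A, hA⟩
  have := lb0 hA
  have h3 : (3).choose 2 = 3 := by decide
  omega

theorem not_realizable_four {n : ℕ} (hn : n < 7) : ¬ Realizable 4 n := by
  rintro ⟨A, hA⟩
  have := lb1 hA (by omega)
  have h3 : (4).choose 2 = 6 := by decide
  omega

theorem not_realizable_five {n : ℕ} (hn : n < 11) : ¬ Realizable 5 n := by
  rintro ⟨A, hA⟩
  have := lb1 hA (by omega)
  have h3 : (5).choose 2 = 10 := by decide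
  omega

theorem not_realizable_six {n : ℕ} (hn : n < 17) : ¬ Realizable 6 n := by
  rintro ⟨A, hA⟩
  have := lb2 hA (by omega)
  have h3 : (6).choose 2 = 15 := by decide
  omega

theorem isGreatest_of {n k : ℕ} (h1 : Realizable k n) (h2 : ¬ Realizable (k + 1) n) :
    IsGreatest {m : ℕ | ∃ A : Fin m → Finset (Fin n), IntersectionDistinct A} k := by
  refine ⟨h1, ?_⟩
  intro m hm
  by_contra hcon
  exact h2 (Realizable.mono_left hm (by omega))

theorem eight_choose (m : ℕ) (hm : 1 ≤ m) :
    8 * m.choose 2 + 1 = (2 * m - 1) * (2 * m - 1) := by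
  obtain ⟨j, rfl⟩ : ∃ j, m = j + 1 := ⟨m - 1, by omega⟩
  have h2 : 2 * (j + 1) - 1 = 2 * j + 1 := by omega
  rw [h2]
  clear hm h2
  induction j with
  | zero => rfl
  | succ j ih => rw [choose_two_succ]; nlinarith

/-- For every `n ≥ 1`, the largest number of subsets of an `n`-element set that form an
intersection-distinct family is `f n`. -/
theorem main : ∀ n : ℕ, 1 ≤ n →
    IsGreatest {m : ℕ | ∃ A : Fin m → Finset (Fin n), IntersectionDistinct A} (f n) := by
  intro n hn
  by_cases h12 : 12 ≤ n
  · have hf : f n = (1 + Nat.sqrt (8 * n - 15)) / 2 := by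
      unfold f
      rw [if_neg (by omega), if_neg (by omega), if_neg (by omega), if_neg (by omega)]
    rw [hf]
    set r := Nat.sqrt (8 * n - 15) with hr
    have hr1 : r * r ≤ 8 * n - 15 := Nat.sqrt_le _
    have hr2 : 8 * n - 15 < (r + 1) * (r + 1) := Nat.lt_succ_sqrt _
    have hr9 : 9 ≤ r := by
      rw [hr]; exact Nat.le_sqrt.mpr (by omega)
    constructor
    · -- existence
      set k := (1 + r) / 2 with hk
      have hk5 : 5 ≤ k := by omega
      have hkr : 2 * k ≤ r + 1 := by omega
      have hkn : k.choose 2 + 2 ≤ n := by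
        have h1 : (2 * k - 1) * (2 * k - 1) ≤ r * r := Nat.mul_le_mul (by omega) (by omega)
        have h3 := eight_choose k (by omega)
        omega
      by_cases hk6 : 6 ≤ k
      · exact (realizable_ge_six k hk6).mono_right hkn
      · have : k = 5 := by omega
        rw [this]
        exact small5.mono_right (by omega)
    · -- upper bound
      rintro m ⟨A, hA⟩
      by_cases hm6 : 6 ≤ m
      · have h1 := lb2 hA hm6
        have h3 : 2 * m - 1 ≤ r := by
          rw [hr]
          apply Nat.le_sqrt.mpr
          have h3 := eight_choose m (by omega)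
          omega
        omega
      · omega
  · push Not at h12
    interval_cases n
    · exact isGreatest_of small2 (not_realizable_three (by norm_num))
    · exact isGreatest_of (small2.mono_right (by norm_num)) (not_realizable_three (by norm_num))
    · exact isGreatest_of small3 (not_realizable_four (by norm_num))
    · exact isGreatest_of (small3.mono_right (by norm_num)) (not_realizable_four (by norm_num))
    · have : f 5 = 3 := by norm_num [f]
      rw [this]
      exact isGreatest_of (small3.mono_right (by norm_num)) (not_realizable_four (by norm_num))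
    · have : f 6 = 3 := by norm_num [f]
      rw [this]
      exact isGreatest_of (small3.mono_right (by norm_num)) (not_realizable_four (by norm_num))
    · exact isGreatest_of small4 (not_realizable_five (by norm_num))
    · have : f 8 = 4 := by norm_num [f]
      rw [this]
      exact isGreatest_of (small4.mono_right (by norm_num)) (not_realizable_five (by norm_num))
    · have : f 9 = 4 := by norm_num [f]
      rw [this]
      exact isGreatest_of (small4.mono_right (by norm_num)) (not_realizable_five (by norm_num))
    · have : f 10 = 4 := by norm_num [f]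
      rw [this]
      exact isGreatest_of (small4.mono_right (by norm_num)) (not_realizable_five (by norm_num))
    · exact isGreatest_of small5 (not_realizable_six (by norm_num))

end Pool.Agent.H61.IntersectionSizes
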